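import Pool.Agent.CBG.StmtsA

/-!
# Squad CBG, row VFX (helper58): fundamental vector fields
-/

set_option autoImplicit false
set_option maxSynthPendingDepth 3

open scoped Manifold ContDiff Topology
open Set Filter MeasureTheory

namespace Pool.Agent.CBG.H58

open Pool.Agent.CBG

section vfx

variable {n : ℕ} {E : Type} [TopologicalSpace E] [ChartedSpace (Ed n) E] [IsManifold (𝓡 n) ∞ E]
  {Φ : ℝ × ℝ → E → E}

omit [IsManifold (𝓡 n) ∞ E] in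
theorem sm1 (h : TAct (n := n) Φ) (t : ℝ × ℝ) : ContMDiff (𝓡 n) (𝓡 n) ∞ (Φ t) := by
  have h1 : ContMDiff (𝓡 n) (𝓘(ℝ, ℝ × ℝ).prod (𝓡 n)) ∞ (fun p : E => (t, p)) :=
    contMDiff_const.prodMk contMDiff_id
  exact h.smooth.comp h1

omit [IsManifold (𝓡 n) ∞ E] in
theorem sm2 (h : TAct (n := n) Φ) (p : E) :
    ContMDiff 𝓘(ℝ, ℝ × ℝ) (𝓡 n) ∞ (fun t => Φ t p) := by
  have h1 : ContMDiff 𝓘(ℝ, ℝ × ℝ) (𝓘(ℝ, ℝ × ℝ).prod (𝓡 n)) ∞ (fun t : ℝ × ℝ => (t, p)) :=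
    contMDiff_id.prodMk contMDiff_const
  exact h.smooth.comp h1

omit [IsManifold (𝓡 n) ∞ E] in
theorem md1 (h : TAct (n := n) Φ) (t : ℝ × ℝ) (p : E) : MDifferentiableAt (𝓡 n) (𝓡 n) (Φ t) p :=
  (sm1 h t).mdifferentiable (by simp) p

omit [IsManifold (𝓡 n) ∞ E] in
theorem md2 (h : TAct (n := n) Φ) (p : E) (t : ℝ × ℝ) :
    MDifferentiableAt 𝓘(ℝ, ℝ × ℝ) (𝓡 n) (fun t => Φ t p) t :=
  (sm2 h p).mdifferentiable (by simp) t

omit [IsManifold (𝓡 n) ∞ E] in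
theorem inj (h : TAct (n := n) Φ) (t : ℝ × ℝ) (p : E) :
    Function.Injective (mfderiv (𝓡 n) (𝓡 n) (Φ t) p) := by
  have h1 : Φ (-t) ∘ Φ t = id := by
    funext q
    rw [Function.comp_apply, ← h.add, neg_add_cancel, h.zero, id]
  have h2 := mfderiv_comp p (md1 h (-t) (Φ t p)) (md1 h t p)
  rw [h1, mfderiv_id] at h2
  intro v w hvw
  have h3 := congrArg (mfderiv (𝓡 n) (𝓡 n) (Φ (-t)) (Φ t p)) hvw
  have h4 : ∀ u : TangentSpace (𝓡 n) p, mfderiv (𝓡 n) (𝓡 n) (Φ (-t)) (Φ t p)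
      (mfderiv (𝓡 n) (𝓡 n) (Φ t) p u) = u := by
    intro u
    have := DFunLike.congr_fun h2 u
    exact this.symm
  have h5 := h4 v
  have h6 := h4 w
  rw [← h5, ← h6]
  exact h3

omit [IsManifold (𝓡 n) ∞ E] in
/-- the differential of `Φ t` maps fundamental vectors to fundamental vectors -/
theorem eqv (h : TAct (n := n) Φ) (t a : ℝ × ℝ) (p : E) :
    (show Ed n from mfderiv (𝓡 n) (𝓡 n) (Φ t) p (vf (n := n) Φ a p)) =
      vf (n := n) Φ a (Φ t p) := by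
  have h1 : (fun s => Φ s (Φ t p)) = Φ t ∘ fun s => Φ s p := by
    funext s
    rw [Function.comp_apply, ← h.add, ← h.add, add_comm]
  have h2 : ∀ q : E, q = p → ∀ v : Ed n, (show Ed n from mfderiv (𝓡 n) (𝓡 n) (Φ t) q v) =
      (show Ed n from mfderiv (𝓡 n) (𝓡 n) (Φ t) p v) := by
    rintro q rfl v
    rfl
  have h3 := mfderiv_comp (I := 𝓘(ℝ, ℝ × ℝ)) (I' := 𝓡 n) (I'' := 𝓡 n) (0 : ℝ × ℝ)
    (md1 h t (Φ 0 p)) (md2 h p 0)
  unfold vf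
  rw [h1, h3]
  exact (h2 _ (h.zero p) _).symm

/-- a curve with derivative zero is constant -/
theorem const_curve (γ : ℝ → E) (hγ : ∀ s, MDifferentiableAt 𝓘(ℝ, ℝ) (𝓡 n) γ s)
    (h0 : ∀ s, (show ℝ →L[ℝ] Ed n from mfderiv 𝓘(ℝ, ℝ) (𝓡 n) γ s) = 0) (s t : ℝ) :
    γ s = γ t := by
  have hloc : IsLocallyConstant γ := by
    rw [IsLocallyConstant.iff_eventually_eq]
    intro s0
    have hsrc : (chartAt (Ed n) (γ s0)).source ∈ 𝓝 (γ s0) :=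
      (chartAt (Ed n) (γ s0)).open_source.mem_nhds (mem_chart_source _ _)
    have hcont : ContinuousAt γ s0 := (hγ s0).continuousAt
    obtain ⟨ε, hε, hball⟩ := Metric.mem_nhds_iff.1 (hcont.preimage_mem_nhds hsrc)
    have hmd : ∀ r ∈ Metric.ball s0 ε, MDifferentiableAt (𝓡 n) 𝓘(ℝ, Ed n)
        (extChartAt (𝓡 n) (γ s0)) (γ r) := fun r hr => mdifferentiableAt_extChartAt (hball hr)
    have hcomp : ∀ r ∈ Metric.ball s0 ε, MDifferentiableAt 𝓘(ℝ, ℝ) 𝓘(ℝ, Ed n)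
        (extChartAt (𝓡 n) (γ s0) ∘ γ) r := fun r hr => (hmd r hr).comp r (hγ r)
    have hder : ∀ r ∈ Metric.ball s0 ε, fderiv ℝ (extChartAt (𝓡 n) (γ s0) ∘ γ) r = 0 := by
      intro r hr
      have h1 := mfderiv_comp r (hmd r hr) (hγ r)
      rw [mfderiv_eq_fderiv] at h1
      rw [h1]
      refine ContinuousLinearMap.ext fun v => ?_
      have h2 : (mfderiv 𝓘(ℝ, ℝ) (𝓡 n) γ r) v = (0 : Ed n) := DFunLike.congr_fun (h0 r) v
      change (mfderiv (𝓡 n) 𝓘(ℝ, Ed n) (extChartAt (𝓡 n) (γ s0)) (γ r))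
        ((mfderiv 𝓘(ℝ, ℝ) (𝓡 n) γ r) v) = _
      rw [h2]
      have h3 : (mfderiv (𝓡 n) 𝓘(ℝ, Ed n) (extChartAt (𝓡 n) (γ s0)) (γ r)) (0 : Ed n) = 0 :=
        map_zero _
      exact h3
    filter_upwards [Metric.ball_mem_nhds s0 hε] with r hr
    have h4 := Metric.isOpen_ball.is_const_of_fderiv_eq_zero
      (convex_ball s0 ε).isPreconnected
      (fun x hx => ((hcomp x hx).differentiableAt).differentiableWithinAt)
      (fun x hx => hder x hx) hr (Metric.mem_ball_self hε)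
    refine (extChartAt (𝓡 n) (γ s0)).injOn ?_ ?_ h4
    · rw [extChartAt_source]
      exact hball hr
    · rw [extChartAt_source]
      exact mem_chart_source _ _
  exact hloc.apply_eq_of_preconnectedSpace s t

/-- the fundamental vector field of `a ≠ 0` has no zero -/
theorem vf_ne (h : TAct (n := n) Φ) (a : ℝ × ℝ) (ha : a ≠ 0) (p : E) :
    vf (n := n) Φ a p ≠ 0 := by
  intro h0
  apply ha
  refine h.lf p a fun s => ?_
  -- the curve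
  have hlin : ∀ r : ℝ, MDifferentiableAt 𝓘(ℝ, ℝ) 𝓘(ℝ, ℝ × ℝ) (fun r : ℝ => r • a) r := by
    intro r
    rw [mdifferentiableAt_iff_differentiableAt]
    fun_prop
  have hγ : ∀ r, MDifferentiableAt 𝓘(ℝ, ℝ) (𝓡 n) (fun r : ℝ => Φ (r • a) p) r := fun r =>
    (md2 h p (r • a)).comp r (hlin r)
  have hd0 : (show ℝ →L[ℝ] Ed n from mfderiv 𝓘(ℝ, ℝ) (𝓡 n) (fun r : ℝ => Φ (r • a) p) 0) = 0 := by
    have h1 := mfderiv_comp (I := 𝓘(ℝ, ℝ)) (I' := 𝓘(ℝ, ℝ × ℝ)) (I'' := 𝓡 n) (0 : ℝ)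
      (md2 h p ((0 : ℝ) • a)) (hlin 0)
    have h2 : ∀ t : ℝ × ℝ, t = 0 → (show ℝ × ℝ →L[ℝ] Ed n from
        mfderiv 𝓘(ℝ, ℝ × ℝ) (𝓡 n) (fun t => Φ t p) t) a = 0 := by
      rintro t rfl
      exact h0
    have h3 : (show ℝ →L[ℝ] ℝ × ℝ from
        mfderiv 𝓘(ℝ, ℝ) 𝓘(ℝ, ℝ × ℝ) (fun r : ℝ => r • a) 0) 1 = a := by
      have h5 : mfderiv 𝓘(ℝ, ℝ) 𝓘(ℝ, ℝ × ℝ) (fun r : ℝ => r • a) 0 =
          fderiv ℝ (fun r : ℝ => r • a) 0 := mfderiv_eq_fderiv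
      change mfderiv 𝓘(ℝ, ℝ) 𝓘(ℝ, ℝ × ℝ) (fun r : ℝ => r • a) 0 1 = a
      rw [h5]
      have h6 : HasFDerivAt (fun r : ℝ => r • a)
          ((ContinuousLinearMap.id ℝ ℝ).smulRight a) 0 :=
        (hasFDerivAt_id (0 : ℝ)).smul_const a
      rw [h6.fderiv]
      change (1 : ℝ) • a = a
      exact one_smul ℝ a
    refine ContinuousLinearMap.ext_ring ?_
    change mfderiv 𝓘(ℝ, ℝ) (𝓡 n) ((fun t => Φ t p) ∘ fun r : ℝ => r • a) 0 1 = 0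
    rw [h1]
    change (show ℝ × ℝ →L[ℝ] Ed n from mfderiv 𝓘(ℝ, ℝ × ℝ) (𝓡 n) (fun t => Φ t p) ((0 : ℝ) • a))
      ((show ℝ →L[ℝ] ℝ × ℝ from mfderiv 𝓘(ℝ, ℝ) 𝓘(ℝ, ℝ × ℝ) (fun r : ℝ => r • a) 0) 1) = 0
    rw [h3]
    exact h2 _ (zero_smul ℝ a)
  have hd : ∀ r, (show ℝ →L[ℝ] Ed n from
      mfderiv 𝓘(ℝ, ℝ) (𝓡 n) (fun r : ℝ => Φ (r • a) p) r) = 0 := by
    intro s0
    -- `γ r = Φ (s0 a) (γ (r - s0))`
    have h1 : (fun r : ℝ => Φ (r • a) p) =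
        Φ (s0 • a) ∘ ((fun r : ℝ => Φ (r • a) p) ∘ fun r : ℝ => r - s0) := by
      funext r
      rw [Function.comp_apply, Function.comp_apply, ← h.add, ← add_smul, add_sub_cancel]
    have hsub : MDifferentiableAt 𝓘(ℝ, ℝ) 𝓘(ℝ, ℝ) (fun r : ℝ => r - s0) s0 := by
      rw [mdifferentiableAt_iff_differentiableAt]
      fun_prop
    have hmid : MDifferentiableAt 𝓘(ℝ, ℝ) (𝓡 n)
        ((fun r : ℝ => Φ (r • a) p) ∘ fun r : ℝ => r - s0) s0 := MDifferentiableAt.comp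
      (g := fun r : ℝ => Φ (r • a) p) (f := fun r : ℝ => r - s0) s0 (hγ (s0 - s0)) hsub
    have h2 := mfderiv_comp (I := 𝓘(ℝ, ℝ)) (I' := 𝓡 n) (I'' := 𝓡 n) s0
      (md1 h (s0 • a) (((fun r : ℝ => Φ (r • a) p) ∘ fun r : ℝ => r - s0) s0)) hmid
    have h3 := mfderiv_comp (I := 𝓘(ℝ, ℝ)) (I' := 𝓘(ℝ, ℝ)) (I'' := 𝓡 n)
      (g := fun r : ℝ => Φ (r • a) p) (f := fun r : ℝ => r - s0) s0 (hγ (s0 - s0)) hsub
    have h4 : ∀ r : ℝ, r = 0 → (show ℝ →L[ℝ] Ed n from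
        mfderiv 𝓘(ℝ, ℝ) (𝓡 n) (fun r : ℝ => Φ (r • a) p) r) = 0 := by
      rintro r rfl
      exact hd0
    refine ContinuousLinearMap.ext fun v => ?_
    have h5 : (show Ed n from mfderiv 𝓘(ℝ, ℝ) (𝓡 n) ((fun r : ℝ => Φ (r • a) p) ∘
        fun r : ℝ => r - s0) s0 v) = 0 := by
      rw [h3]
      exact DFunLike.congr_fun (h4 (s0 - s0) (sub_self s0)) _
    have h6 : (show Ed n from mfderiv 𝓘(ℝ, ℝ) (𝓡 n) (fun r : ℝ => Φ (r • a) p) s0 v) = 0 := by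
      rw [h1, h2]
      exact (congrArg (mfderiv (𝓡 n) (𝓡 n) (Φ (s0 • a))
        (((fun r : ℝ => Φ (r • a) p) ∘ fun r : ℝ => r - s0) s0)) h5).trans (map_zero _)
    exact h6
  have h7 := const_curve (fun r : ℝ => Φ (r • a) p) hγ hd s 0
  have h8 : Φ ((0 : ℝ) • a) p = p := by
    rw [zero_smul, h.zero]
  exact h7.trans h8

end vfx

theorem vfx : VfxStmt := by
  intro n E _ _ _ _ Φ h
  refine ⟨fun t => sm1 h t, fun p => sm2 h p, fun t p => inj h t p, fun t a p => eqv h t a p,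
    fun g p => ⟨fun a b => g.symm p _ _, fun a a' b => ?_, fun r a b => ?_⟩, fun g a p ha => ?_⟩
  · unfold hh
    have h1 : vf (n := n) Φ (a + a') p = vf (n := n) Φ a p + vf (n := n) Φ a' p := map_add _ _ _
    rw [h1]
    exact DFunLike.congr_fun ((g.inner p).map_add _ _) _
  · unfold hh
    have h1 : vf (n := n) Φ (r • a) p = r • vf (n := n) Φ a p := map_smul _ _ _
    rw [h1]
    exact DFunLike.congr_fun ((g.inner p).map_smul _ _) _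
  · exact g.pos p _ (vf_ne h a ha p)

end Pool.Agent.CBG.H58
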